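import Pool.Agent.Q120.ME.Stm

/-!
# Project ME (helper120), job EVT: probabilities of unlikely events (helper184)
-/

set_option autoImplicit false

namespace Pool.Agent.Q184.ME

open Finset MeasureTheory Filter Pool.Agent.Q120.ET Pool.Agent.Q120.ME

theorem bern_pos {p : ℕ → ℝ} {F : Finset ℕ} (hp : ∀ n ∈ F, 0 < p n ∧ p n < 1) (T : Finset ℕ) :
    0 < bern p F T := by
  unfold bern
  refine Finset.prod_pos fun n hn => ?_
  split_ifs
  · exact (hp n hn).1
  · linarith [(hp n hn).2]

theorem sum_bern (p : ℕ → ℝ) (F : Finset ℕ) : ∑ T ∈ F.powerset, bern p F T = 1 := by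
  classical
  have h1 := Finset.prod_add (fun n => p n) (fun n => 1 - p n) F
  have h2 : ∏ n ∈ F, (p n + (1 - p n)) = 1 := Finset.prod_eq_one fun n _ => by ring
  rw [h2] at h1
  rw [h1]
  refine Finset.sum_congr rfl fun T hT => ?_
  have hT' := Finset.mem_powerset.mp hT
  unfold bern
  rw [← Finset.prod_sdiff hT', mul_comm]
  congr 1
  · exact Finset.prod_congr rfl fun n hn => if_pos hn
  · exact Finset.prod_congr rfl fun n hn => if_neg (Finset.mem_sdiff.mp hn).2

/-- **job EVT** -/
theorem t_EVT (hDV : J_DV) : J_EVT := by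
  intro p F hp Ω _ μ _ A hA
  constructor
  · have h1 := hDV p F hp Ω μ A hA (fun _ => 0)
    simp only [mul_zero, Finset.sum_const_zero, Real.exp_zero, mul_one] at h1
    rw [sum_bern, Real.log_one, add_zero] at h1
    exact h1
  · intro E _ K hK
    have h1 := hDV p F hp Ω μ A hA (fun T => if E T then K else 0)
    have h2 : ∑ T ∈ F.powerset, lawOn μ A F T * (if E T then K else 0) =
        μ.real {ω | E (tr A F ω)} * K := by
      rw [real_event hA, Finset.sum_mul, Finset.sum_filter]
      refine Finset.sum_congr rfl fun T _ => ?_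
      split_ifs
      · rfl
      · exact mul_zero _
    rw [h2] at h1
    refine h1.trans ?_
    have h3 : ∑ T ∈ F.powerset, bern p F T * Real.exp (if E T then K else 0) ≤ 2 := by
      have h4 : ∑ T ∈ F.powerset, bern p F T * Real.exp (if E T then K else 0) ≤
          ∑ T ∈ F.powerset, (bern p F T + (if E T then bern p F T * Real.exp K else 0)) := by
        refine Finset.sum_le_sum fun T _ => ?_
        split_ifs
        · linarith [bern_pos hp T]
        · rw [Real.exp_zero]
          linarith
      refine h4.trans ?_
      rw [Finset.sum_add_distrib, sum_bern, ← Finset.sum_filter, ← Finset.sum_mul]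
      have h5 := mul_le_mul_of_nonneg_right hK (Real.exp_pos K).le
      rw [← Real.exp_add, neg_add_cancel, Real.exp_zero] at h5
      linarith
    have h6 : 0 < ∑ T ∈ F.powerset, bern p F T * Real.exp (if E T then K else 0) :=
      Finset.sum_pos (fun T _ => mul_pos (bern_pos hp T) (Real.exp_pos _))
        ⟨∅, Finset.empty_mem_powerset F⟩
    have h7 := Real.log_le_log h6 h3
    linarith

end Pool.Agent.Q184.ME
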